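import Pool.Agent.H68.SLF.Count

/-! Module M3b: the parabolic package for `P1` from the one for `P2` by the symmetry
`g -> w0 (g^-1)^T w0`, and the comparison of the two on `P1 ∩ P2`. -/

set_option autoImplicit false

namespace Pool.Agent.H68.SLF

/-- the parabolic package for `P2` only. The last field compares the word of an element of the Borel
subgroup with the standard word -/
structure P2Pack (W : ℤ → ℤ → List Lt) (E : ℤ → List Lt) (w2 : G → List Lt) (C L₀ : ℕ) : Prop where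
  ev_w : ∀ p, p ∈ P2 → ev (w2 p) = p
  len_w : ∀ p n, p ∈ P2 → Sz n p → (w2 p).length ≤ C * (n + 1)
  comp : ∀ L ≥ L₀, ∀ p q n, p ∈ P2 → q ∈ P2 → Sz n p → Sz n q →
    H L (C * (n + 1)) (w2 p ++ w2 q) (w2 (p * q))
  one : w2 1 = []
  bor : ∀ L ≥ L₀, ∀ (τ : Lt) (x y z : ℤ) (n : ℕ), (∀ i j, i ≠ j → τ.1.1 i j = 0) →
    x.natAbs < 2 ^ n → y.natAbs < 2 ^ n → z.natAbs < 2 ^ n →
    H L (C * (n + 1)) (w2 (τ.1 * (e12 x * uu y z))) (τ :: (E x ++ W y z))

lemma mul_apply3 (g h : G) (i j : Fin 3) :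
    (g * h).1 i j = g.1 i 0 * h.1 0 j + g.1 i 1 * h.1 1 j + g.1 i 2 * h.1 2 j := by
  simp [Matrix.mul_apply, Fin.sum_univ_three]

/-! ### the automorphism -/

/-- the automorphism `g -> w0 (g^-1)^T w0` -/
def th : G →* G where
  toFun g := ⟨(g⁻¹.1.transpose).submatrix Fin.revPerm Fin.revPerm, by
    rw [Matrix.det_submatrix_equiv_self, Matrix.det_transpose]; exact g⁻¹.2⟩
  map_one' := by
    apply Subtype.ext
    simp
  map_mul' := by
    intro g h
    apply Subtype.ext
    have h1 : ((g * h)⁻¹).1 = h⁻¹.1 * g⁻¹.1 := by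
      rw [mul_inv_rev]; rfl
    simp only [h1, Matrix.transpose_mul]
    exact (Matrix.submatrix_mul_equiv _ _ _ _ _).symm

lemma th_apply (g : G) (i j : Fin 3) : (th g).1 i j = g⁻¹.1 (Fin.rev j) (Fin.rev i) := rfl

lemma th_th (g : G) : th (th g) = g := by
  apply Subtype.ext
  ext i j
  rw [th_apply, ← map_inv, th_apply, inv_inv]
  simp

lemma th_Bd {g : G} (h : Bd g) : Bd (th g) := by
  intro i j
  constructor
  · rw [th_apply]; exact (h _ _).2
  · rw [← map_inv, th_apply, inv_inv]; exact (h _ _).1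

lemma th_Sz {n : ℕ} {g : G} (h : Sz n g) : Sz n (th g) := by
  intro i j
  constructor
  · rw [th_apply]; exact (h _ _).2
  · rw [← map_inv, th_apply, inv_inv]; exact (h _ _).1

lemma th_P1 {g : G} (h : g ∈ P1) : th g ∈ P2 := by
  have h1 : g⁻¹ ∈ P1 := inv_mem h
  obtain ⟨h2, h3⟩ := h1
  exact ⟨h3, h2⟩

lemma th_P2 {g : G} (h : g ∈ P2) : th g ∈ P1 := by
  have h1 : g⁻¹ ∈ P2 := inv_mem h
  obtain ⟨h2, h3⟩ := h1
  exact ⟨h3, h2⟩

/-- the automorphism on letters -/
def thL (x : Lt) : Lt := ⟨th x.1, th_Bd x.2⟩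

/-- the automorphism on words -/
def thw (w : List Lt) : List Lt := w.map thL

@[simp] lemma thw_nil : thw [] = [] := rfl
@[simp] lemma thw_cons (x : Lt) (w : List Lt) : thw (x :: w) = thL x :: thw w := by simp [thw]
@[simp] lemma thw_append (u v : List Lt) : thw (u ++ v) = thw u ++ thw v := by simp [thw]
@[simp] lemma length_thw (u : List Lt) : (thw u).length = u.length := by simp [thw]

lemma ev_thw (w : List Lt) : ev (thw w) = th (ev w) := by
  induction w with
  | nil => simp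
  | cons x w ih => simp [ih, thL]

lemma Step.thw {L : ℕ} {u v : List Lt} (h : Step L u v) : Step L (thw u) (thw v) := by
  obtain ⟨a, b, x, y, hx, hy, hxy⟩ := h
  simp only [thw_append]
  exact Step.mk _ _ _ _ (by simpa using hx) (by simpa using hy) (by rw [ev_thw, ev_thw, hxy])

lemma H.thw {L n : ℕ} {u v : List Lt} (h : H L n u v) : H L n (thw u) (thw v) := by
  induction h with
  | refl => exact H.refl _
  | tail _ h ih =>
    exact Relation.ReflTransGen.tail ih ⟨h.1.thw, by simpa using h.2.1, by simpa using h.2.2⟩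

/-! ### one parameter families -/

lemma OneP.thw {F : ℤ → List Lt} {C L₁ : ℕ} (h : OneP F C L₁) :
    OneP (fun t => thw (F t)) C L₁ := by
  refine ⟨by simp [h.zero], fun x n hx => by simpa using h.len x n hx, fun L hL x y n hx hy => ?_⟩
  have := (h.add L hL x y n hx hy).thw
  simpa using this

lemma OneP.neg {F : ℤ → List Lt} {C L₁ : ℕ} (h : OneP F C L₁) :
    OneP (fun t => F (-t)) C L₁ := by
  refine ⟨by simp [h.zero], fun x n hx => h.len _ n (by simpa using hx),
    fun L hL x y n hx hy => ?_⟩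
  have := h.add L hL (-x) (-y) n (by simpa using hx) (by simpa using hy)
  have e : -x + -y = -(x + y) := by ring
  rwa [e] at this

section

variable {W : ℤ → ℤ → List Lt} {E : ℤ → List Lt} {C L₂ : ℕ}

lemma LevC.oneE (h : LevC W E C L₂) : OneP E C L₂ := ⟨h.E_zero, h.len_E, h.E_add⟩

lemma LevC.one1 (h : LevC W E C L₂) : OneP (fun t => W t 0) C L₂ := by
  refine ⟨by simp [h.W_zero], fun x n hx => h.len_W x 0 n hx (by simp),
    fun L hL x y n hx hy => ?_⟩
  simpa using h.W_add L hL x 0 y 0 n hx (by simp) hy (by simp)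

lemma LevC.one2 (h : LevC W E C L₂) : OneP (fun t => W 0 t) C L₂ := by
  refine ⟨by simp [h.W_zero], fun x n hx => h.len_W 0 x n (by simp) hx,
    fun L hL x y n hx hy => ?_⟩
  simpa using h.W_add L hL 0 x 0 y n (by simp) hx (by simp) hy

lemma th_e12 (x : ℤ) : th (e12 x) = uu 0 (-x) := by
  apply Subtype.ext
  ext i j
  rw [th_apply, e12_inv]
  fin_cases i <;> fin_cases j <;> simp [e12, uu, Fin.rev]

lemma th_uu (y z : ℤ) : th (uu y z) = uu (-y) 0 * e12 (-z) := by
  apply Subtype.ext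
  ext i j
  rw [th_apply, uu_inv, mul_apply3]
  fin_cases i <;> fin_cases j <;> simp [e12, uu, Fin.rev]

/-- comparison of two one parameter families with the same values -/
lemma cmp {F F' : ℤ → List Lt} {C C' L₁ L₁' : ℕ} (hF : OneP F C L₁) (hF' : OneP F' C' L₁')
    {L : ℕ} (hL₁ : L₁ ≤ L) (hL₁' : L₁' ≤ L) (hL : 2 * C + 2 * C' ≤ L)
    (hev : ∀ σ : ℤ, σ.natAbs = 1 → ev (F σ) = ev (F' σ)) (x : ℤ) (n : ℕ)
    (hx : x.natAbs < 2 ^ n) :
    H L ((2 * C + 2 * C') * (n + 1)) (F x) (F' x) := by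
  have := count hF hF' [] (c := 0) (by simp) hL₁ hL₁' (by omega)
    (by intro σ hσ; simpa using hev σ hσ) x n hx
  simpa using this

lemma thE (h : LevC W E C L₂) {L : ℕ} (hL : L₂ + 4 * C ≤ L) (x : ℤ) (n : ℕ)
    (hx : x.natAbs < 2 ^ n) : H L (4 * C * (n + 1)) (thw (E x)) (W 0 (-x)) := by
  have := cmp h.oneE.thw h.one2.neg (L := L) (by omega) (by omega) (by omega)
    (by intro σ _; simp only [ev_thw, h.ev_E, h.ev_W, th_e12]) x n hx
  exact this.mono (Nat.mul_le_mul_right _ (by omega))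

lemma thW1 (h : LevC W E C L₂) {L : ℕ} (hL : L₂ + 4 * C ≤ L) (x : ℤ) (n : ℕ)
    (hx : x.natAbs < 2 ^ n) : H L (4 * C * (n + 1)) (thw (W x 0)) (W (-x) 0) := by
  have := cmp h.one1.thw h.one1.neg (L := L) (by omega) (by omega) (by omega)
    (by
      intro σ _
      simp only [ev_thw, h.ev_W, th_uu]
      simp [e12_zero]) x n hx
  exact this.mono (Nat.mul_le_mul_right _ (by omega))

lemma thW2 (h : LevC W E C L₂) {L : ℕ} (hL : L₂ + 4 * C ≤ L) (x : ℤ) (n : ℕ)
    (hx : x.natAbs < 2 ^ n) : H L (4 * C * (n + 1)) (thw (W 0 x)) (E (-x)) := by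
  have := cmp h.one2.thw h.oneE.neg (L := L) (by omega) (by omega) (by omega)
    (by
      intro σ _
      simp only [ev_thw, h.ev_W, h.ev_E, th_uu]
      simp [uu_zero]) x n hx
  exact this.mono (Nat.mul_le_mul_right _ (by omega))

/-- the image of a standard Borel word -/
lemma th_bor (h : LevC W E C L₂) {L : ℕ} (hL : L₂ + 4 * C ≤ L) (τ : Lt) (x y z : ℤ) (n : ℕ)
    (hx : x.natAbs < 2 ^ n) (hy : y.natAbs < 2 ^ n) (hz : z.natAbs < 2 ^ n) :
    H L ((40 * C + 1) * (n + 1)) (thw (τ :: (E x ++ W y z)))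
      (thL τ :: (E (-z) ++ W (-y - x * z) (-x))) := by
  have hxz : (-y - x * z).natAbs < 2 ^ (2 * n + 1) := by
    have h3 : (x * z).natAbs < 2 ^ (2 * n) := by
      rw [Int.natAbs_mul, two_mul, pow_add]
      exact Nat.mul_lt_mul'' hx hz
    have h4 := Int.natAbs_sub_le (-y) (x * z)
    have h5 : 2 ^ (2 * n + 1) = 2 * 2 ^ (2 * n) := by rw [pow_succ]; ring
    have h6 : 2 ^ n ≤ 2 ^ (2 * n) := Nat.pow_le_pow_right (by norm_num) (by omega)
    simp only [Int.natAbs_neg] at h4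
    omega
  have hm : ∀ t : ℤ, t.natAbs < 2 ^ n → (-t).natAbs < 2 ^ (2 * n + 1) := by
    intro t ht
    rw [Int.natAbs_neg]
    exact ht.trans_le (Nat.pow_le_pow_right (by norm_num) (by omega))
  have hn : ∀ t : ℤ, t.natAbs < 2 ^ n → (-t).natAbs < 2 ^ n := by
    intro t ht; rwa [Int.natAbs_neg]
  -- the pieces
  have s1 := thE h hL x n hx
  have s2 : H L (C * (n + 1)) (thw (W y z)) (thw (W y 0) ++ thw (W 0 z)) := by
    have := (h.W_add L (by omega) y 0 0 z n hy (by simp) (by simp) hz).symm.thw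
    simpa using this
  have s3 := thW1 h hL y n hy
  have s4 := thW2 h hL z n hz
  have s5 : H L (C * (n + 1)) (W 0 (-x) ++ W (-y) 0) (W (-y) (-x)) := by
    have := h.W_add L (by omega) 0 (-x) (-y) 0 n (by simp) (hn x hx) (hn y hy) (by simp)
    simpa using this
  have s6 : H L (C * (2 * n + 1 + 1)) (W (-y) (-x) ++ E (-z))
      (E (-z) ++ W (-y - x * z) (-x)) := by
    have := (h.E_W L (by omega) (-z) (-y - x * z) (-x) (2 * n + 1) (hm z hz) hxz (hm x hx)).symm
    have e : -y - x * z + -z * -x = -y := by ring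
    rwa [e] at this
  have l1 : (thw (E x)).length ≤ C * (n + 1) := by simpa using h.len_E x n hx
  have l2 : (thw (W y z)).length ≤ C * (n + 1) := by simpa using h.len_W y z n hy hz
  have l3 : (thw (W y 0)).length ≤ C * (n + 1) := by simpa using h.len_W y 0 n hy (by simp)
  have l4 : (thw (W 0 z)).length ≤ C * (n + 1) := by simpa using h.len_W 0 z n (by simp) hz
  have l5 : (W 0 (-x)).length ≤ C * (n + 1) := h.len_W 0 (-x) n (by simp) (hn x hx)
  have l6 : (W (-y) 0).length ≤ C * (n + 1) := h.len_W (-y) 0 n (hn y hy) (by simp)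
  have l7 : (E (-z)).length ≤ C * (n + 1) := h.len_E (-z) n (hn z hz)
  have hX : (40 * C + 1) * (n + 1) = 40 * (C * (n + 1)) + (n + 1) := by ring
  have hX1 : 4 * C * (n + 1) = 4 * (C * (n + 1)) := by ring
  have hX2 : C * (2 * n + 1 + 1) = 2 * (C * (n + 1)) := by ring
  rw [hX1] at s1 s3 s4
  rw [hX2] at s6
  rw [hX]
  set X := C * (n + 1) with hXd
  have t1 := s1.ctx [thL τ] (thw (W y z)) (m := 40 * X + (n + 1))
    (by simp only [List.length_cons, List.length_nil]; omega)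
  have t2 := s2.left (thL τ :: W 0 (-x)) (m := 40 * X + (n + 1))
    (by simp only [List.length_cons]; omega)
  have t3 := s3.ctx (thL τ :: W 0 (-x)) (thw (W 0 z)) (m := 40 * X + (n + 1))
    (by simp only [List.length_cons]; omega)
  have t4 := s4.left (thL τ :: (W 0 (-x) ++ W (-y) 0)) (m := 40 * X + (n + 1))
    (by simp only [List.length_cons, List.length_append]; omega)
  have t5 := s5.ctx [thL τ] (E (-z)) (m := 40 * X + (n + 1))
    (by simp only [List.length_cons, List.length_nil]; omega)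
  have t6 := s6.left [thL τ] (m := 40 * X + (n + 1))
    (by simp only [List.length_cons, List.length_nil]; omega)
  simp only [thw_cons, thw_append, List.append_assoc, List.cons_append, List.nil_append]
    at t1 t2 t3 t4 t5 t6 ⊢
  exact t1.trans (t2.trans (t3.trans (t4.trans (t5.trans t6))))

end

/-! ### decomposition of elements of the Borel subgroup -/

lemma bor_decomp {p : G} {n : ℕ} (h1 : p ∈ P1) (h2 : p ∈ P2) (hs : Sz n p) :
    ∃ (τ : Lt) (x y z : ℤ), (∀ i j, i ≠ j → τ.1.1 i j = 0) ∧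
      x.natAbs < 2 ^ (2 * n + 1) ∧ y.natAbs < 2 ^ (2 * n + 1) ∧ z.natAbs < 2 ^ (2 * n + 1) ∧
      p = τ.1 * (e12 x * uu y z) := by
  obtain ⟨h10, h20⟩ := h1
  obtain ⟨-, h21⟩ := h2
  have hd := p.2
  rw [Matrix.det_fin_three] at hd
  simp only [h10, h20, h21] at hd
  have hd' : p.1 0 0 * (p.1 1 1 * p.1 2 2) = 1 := by linarith
  have u0 : IsUnit (p.1 0 0) := IsUnit.of_mul_eq_one _ hd'
  have u1 : IsUnit (p.1 1 1) := by
    refine IsUnit.of_mul_eq_one (p.1 0 0 * p.1 2 2) ?_
    linarith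
  have u2 : IsUnit (p.1 2 2) := by
    refine IsUnit.of_mul_eq_one (p.1 0 0 * p.1 1 1) ?_
    linarith
  have q0 : p.1 0 0 * p.1 0 0 = 1 := by
    rcases Int.isUnit_iff.mp u0 with h | h <;> rw [h] <;> norm_num
  have q1 : p.1 1 1 * p.1 1 1 = 1 := by
    rcases Int.isUnit_iff.mp u1 with h | h <;> rw [h] <;> norm_num
  have q2 : p.1 2 2 * p.1 2 2 = 1 := by
    rcases Int.isUnit_iff.mp u2 with h | h <;> rw [h] <;> norm_num
  have n0 : (p.1 0 0).natAbs = 1 := Int.isUnit_iff_natAbs_eq.mp u0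
  have n1 : (p.1 1 1).natAbs = 1 := Int.isUnit_iff_natAbs_eq.mp u1
  have n2 : (p.1 2 2).natAbs = 1 := Int.isUnit_iff_natAbs_eq.mp u2
  let t : G := ⟨!![p.1 0 0, 0, 0; 0, p.1 1 1, 0; 0, 0, p.1 2 2], by
    rw [Matrix.det_fin_three]; simp; linarith⟩
  have htt : t * t = 1 := by
    apply Subtype.ext
    ext i j
    rw [mul_apply3]
    fin_cases i <;> fin_cases j <;> simp [t, q0, q1, q2]
  have hti : t⁻¹ = t := inv_eq_of_mul_eq_one_right htt
  have htb : Bd t := by
    intro i j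
    rw [hti]
    fin_cases i <;> fin_cases j <;> simp [t, n0, n1, n2]
  have b01 := (hs 0 1).1
  have b02 := (hs 0 2).1
  have b12 := (hs 1 2).1
  have hp : 2 ^ n ≤ 2 ^ (2 * n) := Nat.pow_le_pow_right (by norm_num) (by omega)
  have hp1 : 2 ^ (2 * n + 1) = 2 * 2 ^ (2 * n) := by rw [pow_succ]; ring
  have a1 : (p.1 0 0 * p.1 0 1).natAbs < 2 ^ n := by rw [Int.natAbs_mul, n0, one_mul]; exact b01
  have a2 : (p.1 1 1 * p.1 1 2).natAbs < 2 ^ n := by rw [Int.natAbs_mul, n1, one_mul]; exact b12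
  have a3 : (p.1 0 0 * p.1 0 2).natAbs < 2 ^ n := by rw [Int.natAbs_mul, n0, one_mul]; exact b02
  have a4 : ((p.1 0 0 * p.1 0 1) * (p.1 1 1 * p.1 1 2)).natAbs < 2 ^ (2 * n) := by
    rw [Int.natAbs_mul, two_mul, pow_add]
    exact Nat.mul_lt_mul'' a1 a2
  refine ⟨⟨t, htb⟩, p.1 0 0 * p.1 0 1, p.1 0 0 * p.1 0 2 -
    (p.1 0 0 * p.1 0 1) * (p.1 1 1 * p.1 1 2), p.1 1 1 * p.1 1 2, ?_, ?_, ?_, ?_, ?_⟩
  · intro i j hij
    fin_cases i <;> fin_cases j <;> simp [t] at hij ⊢
  · omega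
  · have := Int.natAbs_sub_le (p.1 0 0 * p.1 0 2) ((p.1 0 0 * p.1 0 1) * (p.1 1 1 * p.1 1 2))
    omega
  · omega
  · apply Subtype.ext
    ext i j
    rw [mul_apply3, mul_apply3, mul_apply3, mul_apply3]
    fin_cases i <;> fin_cases j <;> simp [t, e12, uu, h10, h20, h21]
    · linear_combination (-(p.1 0 1)) * q0
    · linear_combination (-(p.1 0 2)) * q0
    · linear_combination (-(p.1 1 2)) * q1

/-! ### the package -/

theorem M3b {W : ℤ → ℤ → List Lt} {E : ℤ → List Lt} {C L₂ : ℕ} (hC : LevC W E C L₂)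
    {w2 : G → List Lt} {C' L' : ℕ} (h2 : P2Pack W E w2 C' L') :
    ∃ w C L₃, ∀ L ≥ L₃, Par w C L := by
  refine ⟨fun b p => if b then w2 p else thw (w2 (th p)), 10 * C' + 200 * C + 5,
    L' + L₂ + 4 * C, fun L hL => ?_⟩
  have hc : ∀ n, C' * (n + 1) ≤ (10 * C' + 200 * C + 5) * (n + 1) := fun n =>
    Nat.mul_le_mul_right _ (by omega)
  refine ⟨?_, ?_, ?_, ?_, ?_⟩
  · intro b p hp
    cases b with
    | true => simpa using h2.ev_w p hp
    | false => simp [ev_thw, h2.ev_w (th p) (th_P1 hp), th_th]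
  · intro b p n hp hs
    cases b with
    | true => simpa using (h2.len_w p n hp hs).trans (hc n)
    | false => simpa using (h2.len_w (th p) n (th_P1 hp) (th_Sz hs)).trans (hc n)
  · intro b p q n hp hq hsp hsq
    cases b with
    | true => simpa using (h2.comp L (by omega) p q n hp hq hsp hsq).mono (hc n)
    | false =>
      have := (h2.comp L (by omega) (th p) (th q) n (th_P1 hp) (th_P1 hq) (th_Sz hsp)
        (th_Sz hsq)).thw.mono (hc n)
      simpa using this
  · intro p n h1 hp2 hs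
    simp only [Bool.false_eq_true, ↓reduceIte]
    obtain ⟨τ, x, y, z, hτ, hx, hy, hz, hp⟩ := bor_decomp (th_P2 hp2) (th_P1 h1) (th_Sz hs)
    have s1 := (h2.bor L (by omega) τ x y z (2 * n + 1) hτ hx hy hz).thw
    have s2 := th_bor hC (L := L) (by omega) τ x y z (2 * n + 1) hx hy hz
    have hτ' : ∀ i j, i ≠ j → (thL τ).1.1 i j = 0 := by
      intro i j hij
      have h3 : τ.1⁻¹.1 = Matrix.adjugate τ.1.1 := rfl
      change (th τ.1).1 i j = 0
      rw [th_apply, h3, Matrix.adjugate_fin_three]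
      have e01 := hτ 0 1 (by decide)
      have e02 := hτ 0 2 (by decide)
      have e10 := hτ 1 0 (by decide)
      have e12 := hτ 1 2 (by decide)
      have e20 := hτ 2 0 (by decide)
      have e21 := hτ 2 1 (by decide)
      fin_cases i <;> fin_cases j <;>
        simp [Fin.rev, e01, e02, e10, e12, e20, e21] at hij ⊢
    have hxz : (-y - x * z).natAbs < 2 ^ (2 * (2 * n + 1) + 1) := by
      have h3 : (x * z).natAbs < 2 ^ (2 * (2 * n + 1)) := by
        rw [Int.natAbs_mul, two_mul (2 * n + 1), pow_add]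
        exact Nat.mul_lt_mul'' hx hz
      have h4 := Int.natAbs_sub_le (-y) (x * z)
      have h5 : 2 ^ (2 * (2 * n + 1) + 1) = 2 * 2 ^ (2 * (2 * n + 1)) := by rw [pow_succ]; ring
      have h6 : 2 ^ (2 * n + 1) ≤ 2 ^ (2 * (2 * n + 1)) :=
        Nat.pow_le_pow_right (by norm_num) (by omega)
      simp only [Int.natAbs_neg] at h4
      omega
    have hm : ∀ t : ℤ, t.natAbs < 2 ^ (2 * n + 1) → (-t).natAbs < 2 ^ (2 * (2 * n + 1) + 1) := by
      intro t ht
      rw [Int.natAbs_neg]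
      exact ht.trans_le (Nat.pow_le_pow_right (by norm_num) (by omega))
    have s3 := (h2.bor L (by omega) (thL τ) (-z) (-y - x * z) (-x) (2 * (2 * n + 1) + 1) hτ'
      (hm z hz) hxz (hm x hx)).symm
    have hval : (thL τ).1 * (e12 (-z) * uu (-y - x * z) (-x)) = p := by
      have h4 : p = th (th p) := (th_th p).symm
      rw [h4, hp, map_mul, map_mul, th_e12, th_uu, e12_uu, ← mul_assoc (uu 0 (-x)), uu_mul]
      have e1 : -y - x * z + -z * -x = 0 + -y := by ring
      rw [e1, add_zero]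
      rfl
    rw [← hp] at s1
    rw [hval] at s3
    have k1 : C' * (2 * n + 1 + 1) = 2 * (C' * (n + 1)) := by ring
    have k2 : (40 * C + 1) * (2 * n + 1 + 1) = 80 * (C * (n + 1)) + 2 * (n + 1) := by ring
    have k3 : C' * (2 * (2 * n + 1) + 1 + 1) = 4 * (C' * (n + 1)) := by ring
    have k4 : (10 * C' + 200 * C + 5) * (n + 1) = 10 * (C' * (n + 1)) + 200 * (C * (n + 1)) +
      5 * (n + 1) := by ring
    rw [k1] at s1
    rw [k2] at s2
    rw [k3] at s3
    rw [k4]
    exact (s1.mono (by omega)).trans ((s2.mono (by omega)).trans (s3.mono (by omega)))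
  · intro b
    cases b with
    | true => simpa using h2.one
    | false => simp [h2.one]

end Pool.Agent.H68.SLF
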