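import Pool.Agent.H68.SLF.Defs

/-! Translation of the linear filling statement for words in bounded matrices to a finite
presentation of SL(3,Z) (module M7). -/

set_option autoImplicit false

namespace Pool.Agent.H68.SLF

namespace M7

instance finite_Lt : Finite Lt := by
  have hf : Function.Injective (fun (g : Lt) => fun (i j : Fin 3) =>
      (⟨g.1.1 i j, by
        have := (g.2 i j).1
        rw [Finset.mem_Icc]
        constructor <;> omega⟩ : Finset.Icc (-3 : ℤ) 3)) := by
    intro g h hgh
    apply Subtype.ext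
    apply Subtype.ext
    ext i j
    have := congrFun (congrFun hgh i) j
    simpa using this
  exact Finite.of_injective _ hf

/-- words over the alphabet of the presentation -/
abbrev Wd (k : ℕ) := List (Fin k × Bool)

/-- a single move of the frozen statement -/
def St {k : ℕ} (R : Set (FreeGroup (Fin k))) (u v : Wd k) : Prop :=
  ∃ (a b c : Wd k), ((∃ x : Fin k × Bool, c = [x, (x.1, !x.2)]) ∨
      ∃ r ∈ R, (c = r.toWord ∨ c = r⁻¹.toWord)) ∧
    ((u = a ++ b ∧ v = a ++ c ++ b) ∨ (u = a ++ c ++ b ∧ v = a ++ b))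

lemma St.symm {k : ℕ} {R : Set (FreeGroup (Fin k))} {u v : Wd k} (h : St R u v) : St R v u := by
  obtain ⟨a, b, c, hc, h⟩ := h
  exact ⟨a, b, c, hc, h.symm.imp (fun h => ⟨h.2, h.1⟩) (fun h => ⟨h.2, h.1⟩)⟩

lemma St.ctx {k : ℕ} {R : Set (FreeGroup (Fin k))} {u v : Wd k} (h : St R u v) (p q : Wd k) :
    St R (p ++ (u ++ q)) (p ++ (v ++ q)) := by
  obtain ⟨a, b, c, hc, h⟩ := h
  refine ⟨p ++ a, b ++ q, c, hc, ?_⟩
  rcases h with ⟨h1, h2⟩ | ⟨h1, h2⟩
  · left; subst h1 h2; constructor <;> simp [List.append_assoc]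
  · right; subst h1 h2; constructor <;> simp [List.append_assoc]

/-- bounded homotopies for the presentation -/
def K {k : ℕ} (R : Set (FreeGroup (Fin k))) (n : ℕ) (u v : Wd k) : Prop :=
  Relation.ReflTransGen (fun x y => St R x y ∧ x.length ≤ n ∧ y.length ≤ n) u v

namespace K

variable {k : ℕ} {R : Set (FreeGroup (Fin k))} {n : ℕ} {u v w : Wd k}

lemma refl (u : Wd k) : K R n u u := Relation.ReflTransGen.refl

lemma trans (h1 : K R n u v) (h2 : K R n v w) : K R n u w := Relation.ReflTransGen.trans h1 h2

lemma symm (h : K R n u v) : K R n v u := by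
  induction h with
  | refl => exact Relation.ReflTransGen.refl
  | tail _ h ih => exact Relation.ReflTransGen.head ⟨h.1.symm, h.2.2, h.2.1⟩ ih

lemma mono {m : ℕ} (h : K R n u v) (hm : n ≤ m) : K R m u v := by
  induction h with
  | refl => exact Relation.ReflTransGen.refl
  | tail _ h ih => exact Relation.ReflTransGen.tail ih ⟨h.1, h.2.1.trans hm, h.2.2.trans hm⟩

lemma ctx (h : K R n u v) (a b : Wd k) {m : ℕ} (hm : n + a.length + b.length ≤ m) :
    K R m (a ++ (u ++ b)) (a ++ (v ++ b)) := by
  induction h with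
  | refl => exact Relation.ReflTransGen.refl
  | tail _ h ih =>
    refine Relation.ReflTransGen.tail ih ⟨h.1.ctx a b, ?_, ?_⟩
    · have := h.2.1; simp only [List.length_append]; omega
    · have := h.2.2; simp only [List.length_append]; omega

/-- free reduction -/
lemma red (h : FreeGroup.Red u v) : K R u.length u v := by
  induction h using Relation.ReflTransGen.head_induction_on with
  | refl => exact refl _
  | @head a c h1 _ ih =>
    have hl : c.length ≤ a.length := by
      have := h1.length
      omega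
    refine Relation.ReflTransGen.head ⟨?_, le_rfl, hl⟩ (mono ih hl)
    cases h1 with
    | @not L1 L2 x b =>
      exact ⟨L1, L2, [(x, b), (x, !b)], Or.inl ⟨(x, b), rfl⟩, Or.inr ⟨by simp, rfl⟩⟩

/-- a relator can be created in front -/
lemma rel {r : FreeGroup (Fin k)} (hr : r ∈ R) (hn : r.toWord.length ≤ n) :
    K R n [] r.toWord :=
  Relation.ReflTransGen.single
    ⟨⟨[], [], r.toWord, Or.inr ⟨r, hr, Or.inl rfl⟩, Or.inl ⟨rfl, by simp⟩⟩, by simp, hn⟩

/-- a word with value in the relators can be created -/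
lemma relw (x : Wd k) (hr : FreeGroup.mk x ∈ R) (hn : x.length ≤ n) : K R n [] x := by
  have h1 : FreeGroup.Red x (FreeGroup.mk x).toWord := by
    rw [FreeGroup.toWord_mk]
    exact FreeGroup.reduce.red
  have h2 : (FreeGroup.mk x).toWord.length ≤ x.length := h1.length_le
  exact (rel hr (h2.trans hn)).trans ((red h1).mono hn).symm

end K

/-- `K` as an explicit sequence -/
lemma K.seq {k : ℕ} {R : Set (FreeGroup (Fin k))} {n : ℕ} {u v : Wd k} (h : K R n u v)
    (hu : u.length ≤ n) :
    ∃ (m : ℕ) (s : ℕ → Wd k), s 0 = u ∧ s m = v ∧ (∀ i ≤ m, (s i).length ≤ n) ∧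
      ∀ i < m, St R (s i) (s (i + 1)) := by
  induction h with
  | refl => exact ⟨0, fun _ => u, rfl, rfl, fun _ _ => hu, fun i hi => absurd hi (by omega)⟩
  | @tail b c _ h ih =>
    obtain ⟨m, s, h0, hm, hl, hs⟩ := ih
    refine ⟨m + 1, fun i => if i ≤ m then s i else c, by simpa using h0, by simp, ?_, ?_⟩
    · intro i hi
      by_cases him : i ≤ m
      · simpa [him] using hl i him
      · simpa [him] using h.2.2
    · intro i hi
      by_cases him : i + 1 ≤ m
      · have h1 : i ≤ m := by omega
        simpa [him, h1] using hs i (by omega)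
      · have h1 : i = m := by omega
        subst h1
        simpa [hm] using h.1

/-! ### The presentation -/

section Pres

variable {k : ℕ} (e : Fin k ≃ Lt)

/-- the value homomorphism -/
def val : FreeGroup (Fin k) →* G := FreeGroup.lift fun i => (e i).1

/-- relators -/
def Rel (M : ℕ) : Set (FreeGroup (Fin k)) := {r | r.toWord.length ≤ M ∧ val e r = 1}

lemma Rel_finite (M : ℕ) : (Rel e M).Finite := by
  have h1 : ({l : Wd k | l.length ≤ M}).Finite := List.finite_length_le _ M
  have h2 : (FreeGroup.toWord ⁻¹' {l : Wd k | l.length ≤ M}).Finite :=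
    h1.preimage (FreeGroup.toWord_injective.injOn)
  exact h2.subset fun r hr => hr.1

/-- a word with small length and trivial value is a relator -/
lemma mk_mem_Rel {M : ℕ} (x : Wd k) (hl : x.length ≤ M) (hx : val e (FreeGroup.mk x) = 1) :
    FreeGroup.mk x ∈ Rel e M := by
  refine ⟨?_, hx⟩
  have h1 : FreeGroup.Red x (FreeGroup.mk x).toWord := by
    rw [FreeGroup.toWord_mk]
    exact FreeGroup.reduce.red
  exact h1.length_le.trans hl

/-- translation of words in matrices -/
def tr (w : List Lt) : Wd k := w.map fun x => (e.symm x, true)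

@[simp] lemma tr_nil : tr e [] = [] := rfl

@[simp] lemma tr_append (u v : List Lt) : tr e (u ++ v) = tr e u ++ tr e v := by simp [tr]

@[simp] lemma tr_cons (x : Lt) (v : List Lt) : tr e (x :: v) = (e.symm x, true) :: tr e v := by
  simp [tr]

@[simp] lemma length_tr (u : List Lt) : (tr e u).length = u.length := by simp [tr]

lemma val_tr (w : List Lt) : val e (FreeGroup.mk (tr e w)) = ev w := by
  induction w with
  | nil => exact map_one _
  | cons x w ih =>
    have h1 : FreeGroup.mk (tr e (x :: w)) = FreeGroup.of (e.symm x) * FreeGroup.mk (tr e w) := by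
      simp [FreeGroup.of]
    rw [h1, map_mul, ih, ev_cons]
    simp [val]

/-- simulation of a homotopy -/
lemma sim {L n M : ℕ} (hM : 2 * L ≤ M) {u v : List Lt} (h : H L n u v) :
    K (Rel e M) (n + 3 * L) (tr e u) (tr e v) := by
  induction h with
  | refl => exact K.refl _
  | @tail b c _ h ih =>
    refine ih.trans ?_
    obtain ⟨hs, h1, h2⟩ := h
    obtain ⟨a, b, x, y, hx, hy, hxy⟩ := hs
    -- create y x⁻¹ in front of x
    have hr : FreeGroup.mk (tr e y ++ FreeGroup.invRev (tr e x)) ∈ Rel e M := by
      apply mk_mem_Rel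
      · simp; omega
      · rw [← FreeGroup.mul_mk, ← FreeGroup.inv_mk, map_mul, map_inv, val_tr, val_tr, hxy,
          mul_inv_cancel]
    have k1 := (K.relw (n := 2 * L) _ hr (by simp; omega)).ctx (tr e a) (tr e x ++ tr e b)
      (m := n + 3 * L) (by simp at h1 ⊢; omega)
    have k2 : K (Rel e M) (2 * L) (FreeGroup.invRev (tr e x) ++ tr e x) [] := by
      have h3 : FreeGroup.Red (FreeGroup.invRev (tr e x) ++ tr e x) [] := by
        have h4 : FreeGroup.mk (FreeGroup.invRev (tr e x) ++ tr e x) = 1 := by
          rw [← FreeGroup.mul_mk, ← FreeGroup.inv_mk, inv_mul_cancel]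
        have h5 : FreeGroup.reduce (FreeGroup.invRev (tr e x) ++ tr e x) = [] := by
          rw [← FreeGroup.toWord_mk, h4, FreeGroup.toWord_one]
        rw [← h5]
        exact FreeGroup.reduce.red
      exact (K.red h3).mono (by simp; omega)
    have k3 := k2.ctx (tr e a ++ tr e y) (tr e b) (m := n + 3 * L) (by simp at h1 ⊢; omega)
    simp only [tr_append, List.append_assoc, List.nil_append] at k1 k3 ⊢
    exact k1.trans k3

/-- positive version of a word -/
def pos (w : Wd k) : List Lt := w.map fun x => if x.2 then e x.1 else linv (e x.1)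

@[simp] lemma length_pos (w : Wd k) : (pos e w).length = w.length := by simp [pos]

lemma ev_pos (w : Wd k) : ev (pos e w) = val e (FreeGroup.mk w) := by
  induction w with
  | nil => exact (map_one _).symm
  | cons x w ih =>
    have h1 : FreeGroup.mk (x :: w) = FreeGroup.mk [x] * FreeGroup.mk w := by simp
    rw [h1, map_mul, ← ih]
    have h2 : pos e (x :: w) = (if x.2 then e x.1 else linv (e x.1)) :: pos e w := by simp [pos]
    rw [h2, ev_cons]
    congr 1
    obtain ⟨i, b⟩ := x
    cases b with
    | true =>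
      have : FreeGroup.mk [(i, true)] = FreeGroup.of i := rfl
      rw [this]; simp [val]
    | false =>
      have : FreeGroup.mk [(i, false)] = (FreeGroup.of i)⁻¹ := rfl
      rw [this]; simp [val]

lemma to_pos {M : ℕ} (hM : 2 ≤ M) (w : Wd k) :
    K (Rel e M) (w.length + 2) w (tr e (pos e w)) := by
  induction w with
  | nil => exact K.refl _
  | cons x w ih =>
    have h2 : tr e (pos e (x :: w)) =
        [(e.symm (if x.2 then e x.1 else linv (e x.1)), true)] ++ (tr e (pos e w) ++ []) := by
      simp [pos]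
    rw [h2]
    have h3 : K (Rel e M) ((x :: w).length + 2) (x :: w) ([x] ++ (tr e (pos e w) ++ [])) := by
      have := ih.ctx [x] [] (m := (x :: w).length + 2) (by simp)
      simpa using this
    refine h3.trans ?_
    have h4 : K (Rel e M) 3 [x] [(e.symm (if x.2 then e x.1 else linv (e x.1)), true)] := by
      obtain ⟨i, b⟩ := x
      cases b with
      | true => simp; exact K.refl _
      | false =>
        simp only [Bool.false_eq_true, ↓reduceIte]
        set j := e.symm (linv (e i)) with hj
        have hr : FreeGroup.mk [(i, true), (j, true)] ∈ Rel e M := by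
          apply mk_mem_Rel e _ (by simpa using hM)
          have h5 : FreeGroup.mk [(i, true), (j, true)] = FreeGroup.of i * FreeGroup.of j := rfl
          rw [h5, map_mul]
          simp [val, hj]
        have k1 := (K.relw (n := 2) _ hr (by simp)).ctx [(i, false)] [] (m := 3) (by simp)
        have k2 : K (Rel e M) 3 [(i, false), (i, true), (j, true)] [(j, true)] := by
          have : FreeGroup.Red.Step ([] ++ (i, false) :: (i, !false) :: [(j, true)])
              ([] ++ [(j, true)]) := FreeGroup.Red.Step.not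
          exact K.red (Relation.ReflTransGen.single this)
        simpa using k1.trans k2
    have h5 := h4.ctx [] (tr e (pos e w)) (m := (x :: w).length + 2) (by simp; omega)
    simpa using h5

/-- moves preserve the class in the presented group -/
lemma St.eq_mk {R : Set (FreeGroup (Fin k))} {u v : Wd k} (h : St R u v) :
    (QuotientGroup.mk (FreeGroup.mk u) : FreeGroup (Fin k) ⧸ Subgroup.normalClosure R) =
      QuotientGroup.mk (FreeGroup.mk v) := by
  have key : ∀ a b c : Wd k, ((∃ x : Fin k × Bool, c = [x, (x.1, !x.2)]) ∨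
      ∃ r ∈ R, (c = r.toWord ∨ c = r⁻¹.toWord)) →
      (QuotientGroup.mk (FreeGroup.mk (a ++ b)) : FreeGroup (Fin k) ⧸ Subgroup.normalClosure R) =
      QuotientGroup.mk (FreeGroup.mk (a ++ c ++ b)) := by
    intro a b c hc
    have hc1 : (QuotientGroup.mk (FreeGroup.mk c) :
        FreeGroup (Fin k) ⧸ Subgroup.normalClosure R) = 1 := by
      rcases hc with ⟨x, rfl⟩ | ⟨r, hr, rfl | rfl⟩
      · have h1 : FreeGroup.mk [x, (x.1, !x.2)] = 1 := by
          have : FreeGroup.Red.Step ([] ++ (x.1, x.2) :: (x.1, !x.2) :: [])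
              ([] ++ []) := FreeGroup.Red.Step.not
          have h2 := FreeGroup.Red.exact.2 ⟨[], Relation.ReflTransGen.single this,
            Relation.ReflTransGen.refl⟩
          exact h2
        rw [h1]; rfl
      · rw [FreeGroup.mk_toWord]
        exact (QuotientGroup.eq_one_iff r).2 (Subgroup.subset_normalClosure hr)
      · rw [FreeGroup.mk_toWord]
        exact (QuotientGroup.eq_one_iff _).2 (inv_mem (Subgroup.subset_normalClosure hr))
    rw [← FreeGroup.mul_mk, ← FreeGroup.mul_mk, ← FreeGroup.mul_mk, QuotientGroup.mk_mul,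
      QuotientGroup.mk_mul, QuotientGroup.mk_mul, hc1, mul_one]
  obtain ⟨a, b, c, hc, ⟨rfl, rfl⟩ | ⟨rfl, rfl⟩⟩ := h
  · exact key a b c hc
  · exact (key a b c hc).symm

lemma K.eq_mk {R : Set (FreeGroup (Fin k))} {n : ℕ} {u v : Wd k} (h : K R n u v) :
    (QuotientGroup.mk (FreeGroup.mk u) : FreeGroup (Fin k) ⧸ Subgroup.normalClosure R) =
      QuotientGroup.mk (FreeGroup.mk v) := by
  induction h with
  | refl => rfl
  | tail _ h ih => exact ih.trans h.1.eq_mk

end Pres

end M7

theorem M7 (hgen : ∀ g : G, ∃ w : List Lt, ev w = g) (L C : ℕ)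
    (h : ∀ w : List Lt, ev w = 1 → H L (C * (w.length + 1)) w []) :
  ∃ (k : ℕ) (R : Finset (FreeGroup (Fin k))),
    Nonempty (PresentedGroup (R : Set (FreeGroup (Fin k))) ≃* Matrix.SpecialLinearGroup (Fin 3) ℤ) ∧
    ∃ C : ℕ, ∀ w : List (Fin k × Bool),
      FreeGroup.mk w ∈ Subgroup.normalClosure (R : Set (FreeGroup (Fin k))) →
      ∃ (m : ℕ) (s : ℕ → List (Fin k × Bool)), s 0 = w ∧ s m = [] ∧
        (∀ i ≤ m, (s i).length ≤ C * w.length + C) ∧
        ∀ i < m, ∃ (a b c : List (Fin k × Bool)),
          ((∃ x : Fin k × Bool, c = [x, (x.1, !x.2)]) ∨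
            ∃ r ∈ R, (c = r.toWord ∨ c = r⁻¹.toWord)) ∧
          ((s i = a ++ b ∧ s (i + 1) = a ++ c ++ b) ∨
            (s i = a ++ c ++ b ∧ s (i + 1) = a ++ b)) := by
  obtain ⟨k, ⟨e'⟩⟩ := Finite.exists_equiv_fin Lt
  let e : Fin k ≃ Lt := e'.symm
  let M : ℕ := 2 * L + 2
  -- the homotopy of a word with trivial value
  have hK : ∀ w : List (Fin k × Bool), M7.val e (FreeGroup.mk w) = 1 →
      M7.K (M7.Rel e M) ((C + 3 * L + 2) * w.length + (C + 3 * L + 2)) w [] := by
    intro w hw
    have h1 := M7.to_pos e (M := M) (by omega) w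
    have h2 := h (M7.pos e w) (by rw [M7.ev_pos, hw])
    have h3 := M7.sim e (M := M) (by omega) h2
    rw [M7.length_pos] at h3
    refine (h1.mono ?_).trans (h3.mono ?_)
    · nlinarith
    · nlinarith
  have hRf := M7.Rel_finite e M
  refine ⟨k, hRf.toFinset, ?_, C + 3 * L + 2, ?_⟩
  · rw [Set.Finite.coe_toFinset]
    let f : PresentedGroup (M7.Rel e M) →* G :=
      PresentedGroup.toGroup (f := fun i => (e i).1) (fun r hr => hr.2)
    have hf : ∀ x : FreeGroup (Fin k), f (QuotientGroup.mk x) = M7.val e x := fun x => rfl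
    refine ⟨MulEquiv.ofBijective f ⟨?_, ?_⟩⟩
    · rw [injective_iff_map_eq_one]
      intro a ha
      obtain ⟨x, rfl⟩ := QuotientGroup.mk_surjective a
      rw [hf] at ha
      have h1 := (hK x.toWord (by rw [FreeGroup.mk_toWord]; exact ha)).eq_mk
      rw [FreeGroup.mk_toWord] at h1
      exact h1
    · intro g
      obtain ⟨w, hw⟩ := hgen g
      exact ⟨QuotientGroup.mk (FreeGroup.mk (M7.tr e w)), by rw [hf, M7.val_tr, hw]⟩
  · intro w hw
    have hw1 : M7.val e (FreeGroup.mk w) = 1 := by
      rw [Set.Finite.coe_toFinset] at hw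
      have h1 : Subgroup.normalClosure (M7.Rel e M) ≤ (M7.val e).ker :=
        Subgroup.normalClosure_le_normal fun r hr => hr.2
      exact h1 hw
    have h1 := hK w hw1
    obtain ⟨m, s, h0, hm, hl, hs⟩ := h1.seq (by nlinarith)
    refine ⟨m, s, h0, hm, hl, fun i hi => ?_⟩
    obtain ⟨a, b, c, hc, hab⟩ := hs i hi
    refine ⟨a, b, c, ?_, hab⟩
    rcases hc with hc | ⟨r, hr, hc⟩
    · exact Or.inl hc
    · exact Or.inr ⟨r, by simpa using hr, hc⟩

end Pool.Agent.H68.SLF
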